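import Pool.Agent.TH530.Gr.Defs
import Pool.Agent.TH530.Gr.Sum
import Pool.Agent.TH530.Gr.G3

/-!
Grunbaum's conjecture on edge colourings fails on every orientable surface of genus at least three.
-/

namespace Pool.Agent.Results.MP_06b47d_co.GenusAtLeastThree

open Pool.Agent.TH530.Gr

/-- Property `(G_g)`: for every simple triangulation of the closed orientable surface of genus `g`
the dual is 3-edge-colourable. -/
def GrunbaumHolds (g : ℕ) : Prop :=
  ∀ (V : Type) [Finite V] (T : SimpTri V), T.HasGenus g → T.DualThreeEdgeColourable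

theorem exists_bad (k : ℕ) : ∃ (V : Type) (_ : Finite V) (T : SimpTri V),
    T.HasGenus (3 + k) ∧ ¬ T.DualThreeEdgeColourable := by
  induction k with
  | zero =>
    refine ⟨Fin G3.dat.n, inferInstance, G3.dat.tri G3.ok, ?_, G3.not_colourable⟩
    rw [SimpTri.hasGenus_iff, G3.arcs, Nat.card_fin]
    norm_num [G3.dat]
  | succ k ih =>
    obtain ⟨V, hV, T, hg, hc⟩ := ih
    obtain ⟨p, q, r, hF⟩ := T.nonempty
    exact ⟨V ⊕ Fin 4, inferInstance, addHandle T p q r hF, hasGenus_addHandle T p q r hF _ hg,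
      fun h => hc (colourable_of_addHandle T p q r hF h)⟩

/-- Property `(G_g)` fails for every `g ≥ 3`. -/
theorem result : ∀ g : ℕ, 3 ≤ g → ¬ GrunbaumHolds g := by
  intro g hg h
  obtain ⟨k, rfl⟩ := Nat.exists_eq_add_of_le hg
  obtain ⟨V, hV, T, h1, h2⟩ := exists_bad k
  exact h2 (h V T h1)

end Pool.Agent.Results.MP_06b47d_co.GenusAtLeastThree
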